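import Pool.Agent.Lib.MP_9ea9ae_an.V.All

namespace Pool.Agent.Results.MP_9ea9ae_an.StarFailsInAModel

open Pool.Agent.Lib.MP_100a6c_lc Pool.Agent.Lib.MP_c5d73d_lc.F Pool.Agent.Lib.MP_9ea9ae_an.V

/-- There is a model `(M, E)` of ZFC in which the statement (*) of Argyros, Mercourakis and
Negrepontis is false: in `(M, E)` there are compact Hausdorff spaces `K`, `L` such that `L` is Corson
compact, the Banach space `C(K)` is isomorphic to a subspace of `C(L)`, and `K` is not Corson compact.
So (*) is not a theorem of ZFC. -/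
theorem result : ∃ (M : Type 1) (E : M → M → Prop), ZFC (Str.mk E Eq) ∧ ¬ AMN (Str.mk E Eq) :=
  final

end Pool.Agent.Results.MP_9ea9ae_an.StarFailsInAModel
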