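import Mathlib
import Pool.Agent.Lib.MP_9ea9ae_an.Defs
import Pool.Agent.Lib.MP_9ea9ae_an.Main

namespace Pool.Agent.Results.MP_9ea9ae_an.StarImpliesNotCH

open Pool.Agent.Lib.MP_9ea9ae_an

/-- If the statement (*) of Argyros, Mercourakis and Negrepontis holds (for all Corson compact `L`
and all compact Hausdorff `K`, if `C(K)` is isomorphic to a subspace of `C(L)`, then `K` is Corson
compact), then the continuum hypothesis fails.  Equivalently, under the continuum hypothesis there
are a Corson compact `L` and a compact non-Corson `K` such that `C(K)` embeds isomorphically into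
`C(L)`.  As the continuum hypothesis is consistent with ZFC, (*) is not a theorem of ZFC. -/
theorem result : AMNStatement → Cardinal.aleph.{0} 1 < Cardinal.continuum.{0} :=
  aleph_one_lt_continuum_of_AMN

end Pool.Agent.Results.MP_9ea9ae_an.StarImpliesNotCH
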